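import Pool.Agent.WRL.MainK
import Pool.Agent.WRL.UpperN

set_option autoImplicit false

/-!
# Nondeterministic nearly weakly read-once linear branching programs

An explicit Boolean function on `n = 2 (t + m)` variables whose complement has ordinary read-once
nondeterministic branching programs with `O(m n)` nodes, and which needs exponential size in every
nondeterministic linear branching program (the tests are linear forms over the field with two
elements) in which each accepted input has an accepting walk with few redundant tests: the test of
a form is redundant if the form is in the span of the forms tested on the walks from the start node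
to this place (or, in the bottom version, on the walks from this place to the accepting node).
-/

namespace Pool.Agent.WRL.Retired.WeaklyReadOnceLinearBP

open Pool.Agent.WRL

/-- Let `n = 2 (t + m)`, `7 m + 3 k ≤ t`. (i) The complement of `CoeffZero t m` has an ordinary
nondeterministic program with `4 m (t + m + 1) + 2` nodes which is read-once in both versions. (ii) A
nondeterministic linear branching program for `CoeffZero t m` in which each accepted input has an
accepting walk whose redundant tests span a space of dimension at most `k` has at least
`2 ^ m / (12 * ∑ i ≤ k, n.choose i)` nodes. (iii) If a program accepts only inputs with the property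
`CoeffZero t m`, then the part of these inputs which have such a walk is small. (iv) In a weakly
read-once program the accepting walks have no redundant tests. -/
theorem result (t m k : ℕ) (hm : 0 < m) (ht : 7 * m + 3 * k ≤ t) :
    (∃ P : Prog (Fin (t + m) ⊕ Fin (t + m) → ZMod 2), P.size ≤ 4 * m * (t + m + 1) + 2 ∧
      P.Ordinary ∧ P.ReadOnce ∧ P.BottomReadOnce ∧ ∀ z, P.Acc z ↔ ¬ CoeffZero t m z) ∧
    (∀ P : Prog (Fin (t + m) ⊕ Fin (t + m) → ZMod 2), (∀ z, P.Acc z ↔ CoeffZero t m z) →
      (∀ z, P.Acc z → P.AccTop k z ∨ P.AccBot k z) →
        2 ^ m ≤ 12 * (∑ i ∈ Finset.range (k + 1), (2 * (t + m)).choose i) * P.size) ∧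
    (∀ P : Prog (Fin (t + m) ⊕ Fin (t + m) → ZMod 2), (∀ z, P.Acc z → CoeffZero t m z) →
      2 ^ m * Nat.card {z // P.AccTop k z ∨ P.AccBot k z} ≤
        12 * (∑ i ∈ Finset.range (k + 1), (2 * (t + m)).choose i) * P.size *
          Nat.card {z // CoeffZero t m z}) ∧
    ∀ P : Prog (Fin (t + m) ⊕ Fin (t + m) → ZMod 2), (P.ReadOnce → ∀ z, P.Acc z → P.AccTop 0 z) ∧
      (P.BottomReadOnce → ∀ z, P.Acc z → P.AccBot 0 z) :=
  ⟨UN.exists_upper t m hm, fun P hacc hk => exact_both t m k hm ht P hacc hk,
    fun P hacc => one_sided_both t m k hm ht P hacc,
    fun P => ⟨fun h _ hz => readOnce_accTop P h hz, fun h _ hz => readOnce_accBot P h hz⟩⟩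

end Pool.Agent.WRL.Retired.WeaklyReadOnceLinearBP
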